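import Pool.Agent.Helper53.WR.Infinite

set_option autoImplicit false

namespace Pool.Agent.Helper53.Kept.AlmostAllScales

/-- `rep A n` is the number of ordered pairs `(a, b)` in `A × A` with `a + b = n`. -/
noncomputable def rep (A : Set ℕ) (n : ℕ) : ℕ :=
  ({p : ℕ × ℕ | p.1 ∈ A ∧ p.2 ∈ A ∧ p.1 + p.2 = n} : Set (ℕ × ℕ)).ncard

/-- The number of `j < J` such that some integer `n` with `2 ^ j ≤ n < 2 ^ (j + 1)` is not a sum
of two elements of `A`. -/
noncomputable def badBlocks (A : Set ℕ) (J : ℕ) : ℕ :=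
  ({j : ℕ | j < J ∧ ∃ n : ℕ, 2 ^ j ≤ n ∧ n < 2 ^ (j + 1) ∧ ∀ a ∈ A, ∀ b ∈ A, a + b ≠ n} :
    Set ℕ).ncard

/-- For every `0 ≤ ρ < 1` there are a set `A` of natural numbers and a constant `C` with
`rep A n ≤ (log n) ^ ρ * exp (C * √(log log n))` for all large `n`, such that for all large `J`
all but at most `J ^ (1 - ρ) * exp (-√(log J))` of the `J` dyadic blocks
`[2 ^ j, 2 ^ (j + 1))`, `j < J`, are contained in `A + A`. For `ρ = 0` this says that
`(log n) ^ o(1)` representations for every `n` suffice to cover almost all dyadic blocks. -/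
theorem result (ρ : ℝ) (hρ0 : 0 ≤ ρ) (hρ1 : ρ < 1) :
    ∃ A : Set ℕ,
      (∃ C : ℝ, ∀ᶠ n : ℕ in Filter.atTop,
        (rep A n : ℝ) ≤ (Real.log n) ^ ρ * Real.exp (C * √(Real.log (Real.log n)))) ∧
      ∀ᶠ J : ℕ in Filter.atTop,
        (badBlocks A J : ℝ) ≤ (J : ℝ) ^ (1 - ρ) * Real.exp (-√(Real.log J)) := by
  obtain ⟨A, h1, h2⟩ := Pool.Agent.Helper53.WR.almost_all_scales2 ρ hρ0 hρ1
  refine ⟨A, h1, h2.mono ?_⟩
  intro J hJ
  refine le_trans (le_of_eq ?_) hJ
  unfold badBlocks Pool.Agent.Helper53.WR.badCount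
  rw [← Set.ncard_coe_finset]
  congr 2
  ext j
  simp only [Set.mem_setOf_eq, Finset.coe_filter, Finset.mem_range]
  unfold Pool.Agent.Helper53.WR.CovBlock
  push Not
  rfl

end Pool.Agent.Helper53.Kept.AlmostAllScales
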