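import Mathlib
import Pool.Agent.Helper52.VBDefs
import Pool.Agent.Helper53.BN.Eight
import Pool.Agent.Helper69.QB.BetaSmall
import Pool.Agent.Helper69.QC.Local

set_option autoImplicit false

open Pool.Agent.Helper52.VB Pool.Agent.Helper53.BN Pool.Agent.Helper69.QB Pool.Agent.Helper69.QC
open Pool.Agent.Helper69.QD Pool.Agent.Helper69.QE Pool.Agent.Helper69.QG

namespace Pool.Agent.Helper53.Kept.BlockNumbers

/-- `b` is the number of blocks of a `VB(v, k, l)` design. -/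
def Num (v k l b : ℕ) : Prop :=
  ∃ D : Multiset (Multiset (Fin v)), IsVB v k l D ∧ Multiset.card D = b

/-- The greatest common divisor of the numbers `v - 1` for the `v ≥ 1` for which the upper bound
`beta k l * v (v - 1) / 2` is the number of blocks of a `VB(v, k, l)` design. -/
noncomputable def topGcd (k l : ℕ) : ℕ :=
  Nat.setGcd {x | ∃ b : ℕ, Num (x + 1) k l b ∧ (b : ℝ) = beta k l * ((x + 1).choose 2 : ℝ)}

/-- The numbers of blocks of the variance-balanced designs with block size `k ≥ 4`. Write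
`C = v (v - 1) / 2`.

(1) Every `VB(v, k, l)` design has at least `l C / QQ v k` and at most `beta k l * C` blocks, and
at least `(l C + d v) / (k (k - 1) / 2)` blocks if `k - 1` divides none of the numbers
`l (v - 1) + 2 e`, `0 ≤ e < d`.

(2) Conversely there are a constant `c` (for `k`) and for every `l ≥ 2` a constant `A` such that
for all `v ≥ 2` with `k` or `l (v - 1)` even, every integer `b` with
`l C + min (c C) (A x) ≤ b QQ v k` and `b ≤ beta k l C - min (c C) (A y)` is the number of blocks of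
a `VB(v, k, l)` design, where `x = 1` if `k - 1 ∣ l (v - 1)` and `x = v` otherwise, `y = 1` if
`topGcd k l ∣ v - 1` and `y = v` otherwise.

(3) For every `l ≥ 2` there are finite sets `E r` and `F r` for the residues `r` modulo some `W`
which describe the numbers of blocks near the lower bound exactly for all large `v` with
`k - 1 ∣ l (v - 1)`, the numbers of blocks near the upper bound exactly for all large `v` with
`topGcd k l ∣ v - 1`, and all numbers of blocks for all large `v` with both properties. Both bounds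
are attained for all large `v` which are `1` modulo `W`.

(4) Estimates and some values for `topGcd k l` and `beta k l`. -/
theorem result (k : ℕ) (hk : 4 ≤ k) :
    (∀ v l b : ℕ, 2 ≤ v → Num v k l b →
      l * v.choose 2 ≤ b * QQ v k ∧ (b : ℝ) ≤ beta k l * (v.choose 2 : ℝ) ∧
      ∀ d : ℕ, (∀ e < d, ¬ (k - 1 ∣ l * (v - 1) + 2 * e)) →
        l * v.choose 2 + d * v ≤ b * k.choose 2) ∧
    (∃ c : ℝ, 0 < c ∧ ∀ l : ℕ, 2 ≤ l → ∃ A : ℝ, 0 < A ∧
      ∀ v : ℕ, 2 ≤ v → (Even k ∨ Even (l * (v - 1))) → ∀ b : ℕ,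
        (l : ℝ) * (v.choose 2 : ℝ) +
          min (c * (v.choose 2 : ℝ)) (A * (if k - 1 ∣ l * (v - 1) then 1 else (v : ℝ))) ≤
            (b : ℝ) * (QQ v k : ℝ) →
        (b : ℝ) ≤ beta k l * (v.choose 2 : ℝ) -
          min (c * (v.choose 2 : ℝ)) (A * (if topGcd k l ∣ v - 1 then 1 else (v : ℝ))) →
        Num v k l b) ∧
    (∀ l : ℕ, 2 ≤ l → ∃ (W A v₀ : ℕ) (E : ℕ → Finset ℕ) (F : ℕ → Finset ℝ), 0 < W ∧
      ∀ v : ℕ, v₀ ≤ v →
        (k - 1 ∣ l * (v - 1) → ∀ b : ℕ, (b : ℝ) ≤ beta k l * (v.choose 2 : ℝ) - A * (v : ℝ) →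
          (Num v k l b ↔ l * v.choose 2 ≤ b * k.choose 2 ∧
            b * k.choose 2 - l * v.choose 2 ∉ E (v % W))) ∧
        (topGcd k l ∣ v - 1 → ∀ b : ℕ,
          (l : ℝ) * (v.choose 2 : ℝ) / (k.choose 2 : ℝ) + A * (v : ℝ) ≤ (b : ℝ) →
          (Num v k l b ↔ (b : ℝ) ≤ beta k l * (v.choose 2 : ℝ) ∧
            beta k l * (v.choose 2 : ℝ) - (b : ℝ) ∉ F (v % W))) ∧
        (k - 1 ∣ l * (v - 1) → topGcd k l ∣ v - 1 → ∀ b : ℕ,
          (Num v k l b ↔ (l * v.choose 2 ≤ b * k.choose 2 ∧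
            b * k.choose 2 - l * v.choose 2 ∉ E (v % W)) ∧
            (b : ℝ) ≤ beta k l * (v.choose 2 : ℝ) ∧
            beta k l * (v.choose 2 : ℝ) - (b : ℝ) ∉ F (v % W))) ∧
        (v ≡ 1 [MOD W] → (∃ b : ℕ, Num v k l b ∧ b * k.choose 2 = l * v.choose 2) ∧
          ∃ b : ℕ, Num v k l b ∧ (b : ℝ) = beta k l * (v.choose 2 : ℝ))) ∧
    ((∀ l : ℕ, k - 1 ∣ l → topGcd k l = 1) ∧
      (∀ l : ℕ, l ≡ 1 [MOD (k - 1)] → 1 ≤ l → topGcd k l ∣ k - 1) ∧
      (k = 4 → ∀ l : ℕ, l ≡ 2 [MOD 3] → topGcd k l = 1)) ∧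
    (∀ l : ℕ, ((l / (k - 1) : ℕ) : ℝ) ≤ beta k l ∧ beta k l ≤ (l : ℝ) / ((k : ℝ) - 1)) ∧
    (∀ l : ℕ, 1 ≤ l → l ≤ 3 →
      beta k l = 2 * (l : ℝ) / (((k : ℝ) - l) * ((k : ℝ) + l - 1))) ∧
    (∀ q : ℕ, beta k (q * (k - 1) + 1) = q + 2 / ((k : ℝ) * ((k : ℝ) - 1))) ∧
    (k = 4 → ∀ q : ℕ, beta k (q * 3 + 2) = q + 2 / 5) := by
  have hC : ∀ v : ℕ, v.choose 2 = C2 v := fun v => Nat.choose_two_right v
  have hCk : (0 : ℝ) < (C2 k : ℝ) := by
    have h : 0 < k.choose 2 := Nat.choose_pos (by omega)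
    rw [hC] at h
    exact_mod_cast h
  have hnum : ∀ v l b : ℕ, Num v k l b ↔ NB k l v b := by
    intro v l b
    constructor
    · rintro ⟨D, hD, rfl⟩
      exact nb_link (by omega : 0 < k) hD
    · exact fun h => link_nb h
  have hg : ∀ l : ℕ, topGcd k l = tg k l := by
    intro l
    unfold topGcd tg
    congr 1
    ext x
    simp only [Set.mem_setOf_eq, TS, LD, hnum, hC, add_zero]
  refine ⟨?_, ?_, ?_, ⟨?_, ?_, ?_⟩, ?_, ?_, ?_, ?_⟩
  · intro v l b hv h
    rw [hnum] at h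
    rw [hC, hC]
    refine ⟨lower_bound hv h, nb_le_beta (by omega) hv h, fun d hd => ?_⟩
    exact nb_local (by omega) (by omega) h (fun e he => by
      rw [add_comm]
      exact hd e he)
  · obtain ⟨c, hc, h⟩ := eight_win k hk
    refine ⟨c, hc, fun l hl => ?_⟩
    obtain ⟨A, hA, h'⟩ := h l hl
    refine ⟨A, hA, fun v hv hadm b hb1 hb2 => ?_⟩
    rw [hC] at hb1 hb2
    rw [hnum]
    refine h' v hv hadm b ?_ ?_
    · refine le_trans (le_of_eq ?_) hb1
      unfold e0
      split_ifs <;> simp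
    · refine hb2.trans (le_of_eq ?_)
      rw [hg]
      unfold e2 tg
      split_ifs <;> simp
  · intro l hl
    obtain ⟨W, A, v₀, E, F, hW, h⟩ := eight_sets k l (by omega) hl
    refine ⟨W, A, v₀, E, F, hW, fun v hv => ?_⟩
    obtain ⟨h1, h2, h3, h4⟩ := h v hv
    simp only [hnum, hC, hg]
    refine ⟨h1, fun hd b hb => h2 hd b (le_trans (le_of_eq ?_) hb), h3, h4⟩
    ring
  · intro l hl
    rw [hg]
    exact gt_triv (by omega) hl
  · intro l hl h1
    rw [hg]
    obtain ⟨q, hq⟩ : ∃ q, l = 1 + q * (k - 1) := by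
      obtain ⟨q, hq⟩ := (Nat.modEq_iff_dvd' h1).1 hl.symm
      exact ⟨q, by rw [mul_comm q]; omega⟩
    rw [hq]
    exact gt_one (by omega) q
  · intro hk4 l hl
    subst hk4
    rw [hg]
    have h2 : l % 3 = 2 := hl
    have h1 : l = 3 * (l / 3) + 2 := by omega
    rw [h1]
    exact gt_four (l / 3)
  · exact fun l => ⟨beta_ge k l (by omega), beta_le k l (by omega)⟩
  · exact fun l h1 h3 => beta_small k l h1 h3 (by omega)
  · intro q
    rw [add_comm]
    exact beta_res_one k q (by omega)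
  · intro hk4 q
    subst hk4
    rw [mul_comm q 3]
    exact (beta_four q).2.2

end Pool.Agent.Helper53.Kept.BlockNumbers
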